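import Pool.Agent.helper83.SC.Wire

open scoped Pointwise
open MeasureTheory Set

namespace Pool.Agent.Results.MP_d2d7b9_gt.OneOddBody

open Pool.Agent.helper83.SC

/-- Schneider's description of the support, in every dimension `m + 1 ≥ 2`, when one of the bodies
is arbitrary and each two of the others contain each other as summands up to positive factors (for
instance `(K, L, …, L)` for any two convex bodies `K` and `L`; for two bodies in dimension three
there is no condition): the support of the mixed area measure is the closure of the set of extreme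
directions. -/
theorem result {m : ℕ} (hm : 1 ≤ m) (C : Fin m → Set (E (m + 1))) (hC : ∀ i, IsBody (C i))
    (i₀ : Fin m)
    (hpar : ∀ i j, i ≠ i₀ → j ≠ i₀ →
      ∃ c : ℝ, 0 < c ∧ ∃ D : Set (E (m + 1)), IsBody D ∧ C i = c • C j + D)
    (S : Measure (E (m + 1))) (hS : IsMixedArea C S) :
    {u | ∀ U : Set (E (m + 1)), IsOpen U → u ∈ U → 0 < S U} = closure (extremeDirections C) :=
  (W_main @W_lower' @W_upper' hm C hC S hS).2 ⟨i₀, hpar⟩

end Pool.Agent.Results.MP_d2d7b9_gt.OneOddBody
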