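import Pool.Agent.helper83.SC.Wire

open scoped Pointwise
open MeasureTheory Set

namespace Pool.Agent.Results.MP_d2d7b9_gt.UpperInclusion

open Pool.Agent.helper83.SC

/-- One half of Schneider's description, in full generality: in every dimension `m + 1 ≥ 2` and
for all convex bodies `C_1, …, C_m`, the support of their mixed area measure is contained in the
closure of the set of `(C_1, …, C_m)`-extreme directions. -/
theorem result {m : ℕ} (hm : 1 ≤ m) (C : Fin m → Set (E (m + 1))) (hC : ∀ i, IsBody (C i))
    (S : Measure (E (m + 1))) (hS : IsMixedArea C S) :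
    {u | ∀ U : Set (E (m + 1)), IsOpen U → u ∈ U → 0 < S U} ⊆ closure (extremeDirections C) :=
  (W_main @W_lower' @W_upper' hm C hC S hS).1

end Pool.Agent.Results.MP_d2d7b9_gt.UpperInclusion
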